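import Pool.Agent.Helper99.MKV.GoalsC

open Finset

namespace Pool.Agent.Helper33.MKV

open Pool.Agent.Helper99.MKV Pool.Agent.Helper99.EXC Pool.Agent.Helper99.ERW

lemma nm_le_iff {x : Site 2} {r : ℝ} : nm x ≤ r ↔ ∀ i, |(x i : ℝ)| ≤ r := by
  unfold nm
  rw [max_le_iff]
  constructor
  · rintro ⟨h0, h1⟩ i
    fin_cases i
    · exact h0
    · exact h1
  · intro h
    exact ⟨h 0, h 1⟩

lemma mem_Bx_iff {b k : ℕ} {x : Site 2} : x ∈ Bx b k ↔ nm x ≤ (b : ℝ) * 2 ^ k := by
  unfold Bx
  rw [mem_box, nm_le_iff]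
  refine forall_congr' fun i => ?_
  rw [← Int.cast_abs]
  constructor
  · intro h
    have : ((|x i| : ℤ) : ℝ) ≤ ((((b * 2 ^ k : ℕ)) : ℤ) : ℝ) := by exact_mod_cast h
    simpa using this
  · intro h
    have : ((|x i| : ℤ) : ℝ) ≤ ((((b * 2 ^ k : ℕ)) : ℤ) : ℝ) := by
      push_cast
      simpa using h
    exact_mod_cast this

lemma nm_nonneg (x : Site 2) : 0 ≤ nm x := by
  unfold nm
  exact le_max_of_le_left (abs_nonneg _)

lemma chi_nonneg (b K : ℕ) (x : Site 2) : 0 ≤ chi b K x := by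
  unfold chi; exact le_max_left _ _

lemma chi_le_one (b K : ℕ) (x : Site 2) : chi b K x ≤ 1 := by
  unfold chi
  exact max_le zero_le_one (min_le_left _ _)

lemma chi_out {b K : ℕ} (hb : 1 ≤ b) {x : Site 2} (hx : x ∉ Bx b K) : chi b K x = 0 := by
  rw [mem_Bx_iff, not_le] at hx
  unfold chi
  have hpos : (0 : ℝ) < (b : ℝ) * 2 ^ K := by
    have : (0 : ℝ) < b := by exact_mod_cast hb
    positivity
  have h1 : 2 - 2 * nm x / (b * 2 ^ K) ≤ 0 := by
    have : 1 ≤ nm x / (b * 2 ^ K) := by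
      rw [le_div_iff₀ hpos]; linarith
    have h2 : 2 * nm x / (b * 2 ^ K) = 2 * (nm x / (b * 2 ^ K)) := by ring
    rw [h2]; linarith
  exact max_eq_left (le_trans (min_le_right _ _) h1)

lemma chi_in {b K : ℕ} (hb : 1 ≤ b) (hK : 1 ≤ K) {x : Site 2} (hx : x ∈ Bx b (K - 1)) :
    chi b K x = 1 := by
  rw [mem_Bx_iff] at hx
  unfold chi
  have hpos : (0 : ℝ) < (b : ℝ) * 2 ^ K := by
    have : (0 : ℝ) < b := by exact_mod_cast hb
    positivity
  have h2 : (2 : ℝ) ^ K = 2 * 2 ^ (K - 1) := by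
    rw [← pow_succ']
    congr 1
    omega
  have h1 : 1 ≤ 2 - 2 * nm x / (b * 2 ^ K) := by
    have : 2 * nm x / (b * 2 ^ K) ≤ 1 := by
      rw [div_le_one hpos, h2]
      nlinarith
    linarith
  rw [min_eq_left h1]
  exact max_eq_right zero_le_one

lemma nm_cor (L : ℕ) (hL : 0 < L) (z : Site 2) : nm (cor L (cel L z) - z) ≤ L := by
  rw [nm_le_iff]
  intro i
  have hL' : (0 : ℤ) < L := by exact_mod_cast hL
  have h1 := Int.emod_add_mul_ediv (z i) (L : ℤ)
  have h2 := Int.emod_nonneg (z i) hL'.ne'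
  have h3 := Int.emod_lt_of_pos (z i) hL'
  have h4 : (cor L (cel L z) - z) i = -(z i % (L : ℤ)) := by
    simp only [Pi.sub_apply, cor, cel]
    linarith
  rw [h4, ← Int.cast_abs]
  have h5 : |-(z i % (L : ℤ))| ≤ (L : ℤ) := by
    rw [abs_neg, abs_of_nonneg h2]
    exact h3.le
  exact_mod_cast h5

lemma cel_mem {b k M : ℕ} (hM : M ≤ k) {z : Site 2} (hz : z ∈ Bx b k) :
    cel (2 ^ (k - M)) z ∈ Bx b M := by
  unfold Bx at hz ⊢
  rw [mem_box] at hz ⊢
  intro i
  have h := abs_le.mp (hz i)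
  have hk : b * 2 ^ k = (b * 2 ^ M) * 2 ^ (k - M) := by
    rw [mul_assoc, ← pow_add]
    congr 2
    omega
  have hL : (0 : ℤ) < ((2 ^ (k - M) : ℕ) : ℤ) := by positivity
  rw [hk] at h
  rw [abs_le]
  constructor
  · show -(((b * 2 ^ M : ℕ)) : ℤ) ≤ z i / ((2 ^ (k - M) : ℕ) : ℤ)
    rw [Int.le_ediv_iff_mul_le hL]
    push_cast at h ⊢
    linarith [h.1]
  · show z i / ((2 ^ (k - M) : ℕ) : ℤ) ≤ (((b * 2 ^ M : ℕ)) : ℤ)
    refine Int.ediv_le_of_le_mul hL ?_
    push_cast at h ⊢
    linarith [h.2]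

theorem FNE (hSMS : SMS_stmt) (hFVB : FVB_stmt) : FNE_stmt := by
  intro κ C b B hκ hC hb hB
  obtain ⟨C1, hC1, hcard, -⟩ := hSMS b hb
  obtain ⟨C2, hC2, hF⟩ := hFVB κ C b B hκ hC hb hB
  have hC1' : 0 ≤ C1 := by linarith
  have hCBC : C1 * B ≤ C1 * B * C := by
    have : 0 ≤ C1 * B := by positivity
    nlinarith
  have hC1B : C1 ≤ C1 * B := by nlinarith
  refine ⟨C1 * B * C + C2, by positivity, ?_⟩
  intro E ι _ U a S φ Φ k1 hD hX m m' M k hk hm' hM A v hv
  obtain ⟨hA, hv0, hvA⟩ := hv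
  have hsub : (Bx b k).image (cel (2 ^ (k - M))) ⊆ Bx b M := by
    intro α hα
    rw [Finset.mem_image] at hα
    obtain ⟨z, hz, rfl⟩ := hα
    exact cel_mem hM hz
  have h4k : (0 : ℝ) < 4 ^ k := by positivity
  refine ⟨?_, fun t => ⟨fun α => ?_, ?_⟩⟩
  · have h1 : (((Bx b k).image (cel (2 ^ (k - M)))).card : ℝ) ≤ ((Bx b M).card : ℝ) := by
      exact_mod_cast Finset.card_le_card hsub
    have h2 := hcard M
    have h3 : C1 * 4 ^ M ≤ (C1 * B * C + C2) * 4 ^ M := by
      refine mul_le_mul_of_nonneg_right ?_ (by positivity)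
      linarith
    linarith
  · unfold Uc
    have h1 : |∑ z ∈ (Bx b k).filter (fun z => cel (2 ^ (k - M)) z = α), v z * S z (t.2 z)| ≤
        ∑ z ∈ (Bx b k).filter (fun z => cel (2 ^ (k - M)) z = α), A / 4 ^ k * B := by
      refine (Finset.abs_sum_le_sum_abs _ _).trans (Finset.sum_le_sum fun z _ => ?_)
      rw [abs_mul]
      exact mul_le_mul (hvA z) (hD.bd z _) (abs_nonneg _) (by positivity)
    have h2 : ∑ z ∈ (Bx b k).filter (fun z => cel (2 ^ (k - M)) z = α), A / 4 ^ k * B ≤
        ∑ z ∈ Bx b k, A / 4 ^ k * B :=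
      Finset.sum_le_sum_of_subset_of_nonneg (Finset.filter_subset _ _)
        (fun _ _ _ => by positivity)
    have h3 : ∑ z ∈ Bx b k, A / 4 ^ k * B ≤ C1 * B * A := by
      rw [Finset.sum_const, nsmul_eq_mul]
      have := mul_le_mul_of_nonneg_right (hcard k) (show 0 ≤ A / 4 ^ k * B by positivity)
      refine this.trans (le_of_eq ?_)
      field_simp
    have h4 : C1 * B * A ≤ (C1 * B * C + C2) * A :=
      mul_le_mul_of_nonneg_right (by linarith) hA
    linarith
  · set j := k - m with hj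
    set L : ℕ := 2 ^ (k - M) with hL
    set x := t.1 with hx
    set χ := chi b (k + m') x with hχ
    have hχ0 : 0 ≤ χ := chi_nonneg _ _ _
    have hχ1 : χ ≤ 1 := chi_le_one _ _ _
    have hsum : ∑ α ∈ (Bx b k).image (cel L), Uc S b k v L α t * va Φ b m m' k (cor L α) x =
        ∑ z ∈ Bx b k, v z * S z (t.2 z) * (χ * (Df (Φ j) (x - cor L (cel L z)) - Df (Φ k) x)) := by
      have h1 : ∀ α, Uc S b k v L α t * va Φ b m m' k (cor L α) x =
          ∑ z ∈ (Bx b k).filter (fun z => cel L z = α),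
            v z * S z (t.2 z) * (χ * (Df (Φ j) (x - cor L (cel L z)) - Df (Φ k) x)) := by
        intro α
        unfold Uc va
        rw [Finset.sum_mul]
        refine Finset.sum_congr rfl fun z hz => ?_
        rw [Finset.mem_filter] at hz
        rw [hz.2]
      rw [Finset.sum_congr rfl fun α _ => h1 α]
      exact Finset.sum_fiberwise_of_maps_to (fun z hz => Finset.mem_image_of_mem _ hz) _
    have hdec : fv Φ S b j k v t - ∑ α ∈ (Bx b k).image (cel L),
        Uc S b k v L α t * va Φ b m m' k (cor L α) x =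
        χ * (∑ z ∈ Bx b k, v z * S z (t.2 z) * (Df (Φ j) (x - z) -
          Df (Φ j) (x - cor L (cel L z)))) + (1 - χ) * fv Φ S b j k v t := by
      rw [hsum]
      unfold fv
      rw [Finset.mul_sum, Finset.mul_sum, ← Finset.sum_sub_distrib, ← Finset.sum_add_distrib]
      refine Finset.sum_congr rfl fun z _ => ?_
      ring
    rw [hdec]
    refine (abs_add_le _ _).trans (add_le_add ?_ ?_)
    · split_ifs with hin
      · rw [abs_mul, abs_of_nonneg hχ0]
        have h1 : |∑ z ∈ Bx b k, v z * S z (t.2 z) * (Df (Φ j) (x - z) -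
            Df (Φ j) (x - cor L (cel L z)))| ≤
            ∑ z ∈ Bx b k, A / 4 ^ k * B * (C / 8 ^ j * L) := by
          refine (Finset.abs_sum_le_sum_abs _ _).trans (Finset.sum_le_sum fun z _ => ?_)
          rw [abs_mul, abs_mul]
          have h2 : |v z| * |S z (t.2 z)| ≤ A / 4 ^ k * B :=
            mul_le_mul (hvA z) (hD.bd z _) (abs_nonneg _) (by positivity)
          have h3 : |Df (Φ j) (x - z) - Df (Φ j) (x - cor L (cel L z))| ≤ C / 8 ^ j * L := by
            refine (hX.lipk j (by omega) _ _).trans ?_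
            refine mul_le_mul_of_nonneg_left ?_ (by positivity)
            have h4 : x - z - (x - cor L (cel L z)) = cor L (cel L z) - z := by abel
            rw [h4]
            exact nm_cor L (by positivity) z
          exact mul_le_mul h2 h3 (abs_nonneg _) (by positivity)
        rw [Finset.sum_const, nsmul_eq_mul] at h1
        have h5 := mul_le_mul_of_nonneg_right (hcard k)
          (show 0 ≤ A / 4 ^ k * B * (C / 8 ^ j * L) by positivity)
        have h6 : C1 * 4 ^ k * (A / 4 ^ k * B * (C / 8 ^ j * L)) =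
            C1 * B * C * A * 8 ^ m / 2 ^ M / 4 ^ k := by
          have e1 : (8 : ℝ) ^ j * 8 ^ m = 8 ^ k := by
            rw [← pow_add]; congr 1; omega
          have e2 : ((L : ℕ) : ℝ) * 2 ^ M = 2 ^ k := by
            rw [hL]; push_cast
            rw [← pow_add]; congr 1; omega
          have e3 : (8 : ℝ) ^ k = 2 ^ k * 4 ^ k := by
            rw [← mul_pow]; norm_num
          have hL2 : ((L : ℕ) : ℝ) = 2 ^ k / 2 ^ M := by
            rw [eq_div_iff (by positivity)]; exact e2
          have h8 : (8 : ℝ) ^ j = 2 ^ k * 4 ^ k / 8 ^ m := by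
            rw [eq_div_iff (by positivity), e1, e3]
          rw [hL2, h8]
          field_simp
        have h7 : C1 * B * C * A * 8 ^ m / 2 ^ M / 4 ^ k ≤
            (C1 * B * C + C2) * A * 8 ^ m / 2 ^ M / 4 ^ k := by
          have : C1 * B * C * A * 8 ^ m ≤ (C1 * B * C + C2) * A * 8 ^ m := by
            refine mul_le_mul_of_nonneg_right (mul_le_mul_of_nonneg_right (by linarith) hA)
              (by positivity)
          gcongr
        have h9 : χ * |∑ z ∈ Bx b k, v z * S z (t.2 z) * (Df (Φ j) (x - z) -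
            Df (Φ j) (x - cor L (cel L z)))| ≤ 1 * |∑ z ∈ Bx b k, v z * S z (t.2 z) *
              (Df (Φ j) (x - z) - Df (Φ j) (x - cor L (cel L z)))| :=
          mul_le_mul_of_nonneg_right hχ1 (abs_nonneg _)
        linarith
      · rw [hχ, chi_out hb hin, zero_mul, abs_zero]
    · split_ifs with hin
      · rw [hχ, chi_in hb (by omega) hin, sub_self, zero_mul, abs_zero]
      · have hnot : t.1 ∉ Bx b (k + 1) := by
          intro h
          apply hin
          rw [mem_Bx_iff] at h ⊢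
          refine h.trans ?_
          refine mul_le_mul_of_nonneg_left ?_ (by positivity)
          exact pow_le_pow_right₀ (by norm_num) (by omega)
        have h1 := (hF E ι U a S φ Φ k1 hD hX j k (by omega) (by omega) A v
          ⟨hA, hv0, hvA⟩ t).2 hnot
        rw [abs_mul, abs_of_nonneg (by linarith : 0 ≤ 1 - χ)]
        have h2 : (1 - χ) * |fv Φ S b j k v t| ≤ 1 * |fv Φ S b j k v t| :=
          mul_le_mul_of_nonneg_right (by linarith) (abs_nonneg _)
        have hn := nm_nonneg t.1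
        have h3 : C2 * A * 2 ^ k / (1 + nm t.1) ^ 3 ≤
            (C1 * B * C + C2) * A * 2 ^ k / (1 + nm t.1) ^ 3 := by
          have h5 : C2 * A * 2 ^ k ≤ (C1 * B * C + C2) * A * 2 ^ k := by
            refine mul_le_mul_of_nonneg_right (mul_le_mul_of_nonneg_right ?_ hA)
              (by positivity)
            have : 0 ≤ C1 * B * C := by positivity
            linarith
          gcongr
        linarith

end Pool.Agent.Helper33.MKV
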